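import Pool.Agent.NDG61.CLink

/-!
# Pairs of pendant cliques can be deleted in the Normal Domination Game

`G_j` is the graph obtained from a finite graph `G` by adding `j` disjoint cliques on `W`, the
vertex `w` of each of them being joined to the set `S w` of old vertices. For all large `j` the
Sprague-Grundy value of the Normal Domination Game on `G_j` depends only on the parity of `j`.

Proof idea. A position is described by the set `U` of undominated old vertices, the set `R` of
the vertices of `W` that no chosen old vertex dominates, the number `k` of cliques without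
chosen vertex, and a bit. A move that keeps `(U, R)` lowers `k` by one, so for fixed `(U, R)`
the values form a sequence `x k = mex (O k ∪ {x (k - 1)})` where, by induction, `O` has period
two from some point on. Then `x (k + 2) ≤ x k`, and if `x (k + 2) < x k`, then
`x (k + 2) = x (k - 1) < x k` and the inequality is also strict at `k - 1`; three such steps in
a row are impossible, so `x` has period two from two steps later on.
-/

namespace Pool.Agent.Results.MP_72fa99_lc.CliquePairs

open Pool.Agent.NDG25 Pool.Agent.NDG61

theorem result : ∀ (V W : Type) [Finite V] [Finite W] (G : SimpleGraph V) (S : W → Set V)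
    (j j' : ℕ),
    2 * (Nat.card V + Nat.card W) + {x | ∃ w, x ∈ S w}.ncard + 2 ≤ j →
    2 * (Nat.card V + Nat.card W) + {x | ∃ w, x ∈ S w}.ncard + 2 ≤ j' →
    j % 2 = j' % 2 →
    (∀ n, HasGrundy (addCliques G S j) ∅ n ↔ HasGrundy (addCliques G S j') ∅ n) ∧
    (AliceWins (addCliques G S j) ↔ AliceWins (addCliques G S j')) ∧
    (BobWins (addCliques G S j) ↔ BobWins (addCliques G S j')) := by
  intro V W _ _ G S j j' hj hj' hp
  have h := gr_parity' G S j j' hj hj' hp
  refine ⟨fun n => ?_, ?_, ?_⟩
  · rw [gr_eq_iff, gr_eq_iff, h]
  · rw [aliceWins_iff, aliceWins_iff, h]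
  · rw [bobWins_iff, bobWins_iff, h]

end Pool.Agent.Results.MP_72fa99_lc.CliquePairs
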