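import Pool.Agent.NDG25.Strong

/-!
# The Normal Domination Game on trees with many leaves

Every finite graph (in particular every tree with at least three vertices) in which each
non-leaf vertex has more leaf neighbours than non-leaf neighbours: the Sprague-Grundy value of
the Normal Domination Game is the nim-sum, over the non-leaf vertices, of 1 (odd number of
leaf neighbours) or 2 (even number of leaf neighbours).

Proof idea. Call a position good if every dominated non-leaf vertex `v` has at least `d + 1`
undominated leaves, where `d` is the number of its undominated non-leaf neighbours (no
condition for `d = 0`). In a good position the Grundy value is the nim-sum of 1 / 2 over the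
non-leaf vertices with an odd / a positive even number of undominated leaves. The only moves
that leave the good positions choose a leaf at a vertex `c` with exactly `d + 1` undominated
leaves, `d > 0`; the answer to such a move is a leaf at an undominated non-leaf neighbour of
`c`, which leads to a good position with the old nim-sum. The handshake lemma for the graph
of the undominated non-leaf vertices gives, in a good position whose nim-sum contains 2, a
leaf move that changes the nim-sum by 3 and leads to a good position.
-/

namespace Pool.Agent.Results.MP_72fa99_lc.LeafyGraphs

open Pool.Agent.NDG25

theorem result : ∀ (V : Type) [Finite V] (G : SimpleGraph V),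
    ((∀ x y, G.Adj x y → IsLeaf G x → ¬ IsLeaf G y) ∨ (G.Connected ∧ 3 ≤ Nat.card V)) →
    (∀ v, ¬ IsLeaf G v → innerDeg G v < leafDeg G v) →
    (∀ n, HasGrundy G ∅ n ↔ n = oddInner G % 2 + 2 * (evenInner G % 2)) ∧
    (BobWins G ↔ Even (oddInner G) ∧ Even (evenInner G)) ∧
    (AliceWins G ↔ ¬ (Even (oddInner G) ∧ Even (evenInner G))) :=
  fun _ _ G h1 h2 => main2 G h1 h2

end Pool.Agent.Results.MP_72fa99_lc.LeafyGraphs
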