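import Pool.Agent.NDG25.OddCase

/-!
# The Normal Domination Game when all leaf numbers are odd

Every finite graph (in particular every tree with at least three vertices) in which each
non-leaf vertex has an odd number, at least 3, of leaf neighbours, and at least as many leaf
neighbours as non-leaf neighbours: the Sprague-Grundy value of the Normal Domination Game is 0 or
1, according to the parity of the number of non-leaf vertices.

Proof idea. Call a position good if every dominated non-leaf vertex has at least as many
undominated leaves as undominated non-leaf neighbours. In a good position the Grundy value is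
the nim-sum of 1 / 2 over the non-leaf vertices with an odd / a positive even number of
undominated leaves. The moves that leave the good positions choose a leaf at a vertex `c` with as
many undominated leaves as undominated non-leaf neighbours. If this number is at least 2, the
answer is a leaf at an undominated non-leaf neighbour of `c`; if it is 1, the answer is the
undominated non-leaf neighbour of `c` itself. Both lead to a good position with the old nim-sum.
-/

namespace Pool.Agent.Results.MP_72fa99_lc.OddLeafNumbers

open Pool.Agent.NDG25

theorem result : ∀ (V : Type) [Finite V] (G : SimpleGraph V),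
    ((∀ x y, G.Adj x y → IsLeaf G x → ¬ IsLeaf G y) ∨ (G.Connected ∧ 3 ≤ Nat.card V)) →
    (∀ v, ¬ IsLeaf G v →
      innerDeg G v ≤ leafDeg G v ∧ Odd (leafDeg G v) ∧ 3 ≤ leafDeg G v) →
    (∀ n, HasGrundy G ∅ n ↔ n = {v | ¬ IsLeaf G v}.ncard % 2) ∧
    (BobWins G ↔ Even {v | ¬ IsLeaf G v}.ncard) ∧
    (AliceWins G ↔ Odd {v | ¬ IsLeaf G v}.ncard) :=
  fun _ _ G h1 h2 => main3 G h1 h2

end Pool.Agent.Results.MP_72fa99_lc.OddLeafNumbers
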