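import Pool.Agent.NDG61.StarMain

/-!
# The Normal Domination Game on trees of diameter at most 4

The non-leaf vertices form a star with centre `c`; `c` has at least 4 leaves and every other
non-leaf vertex at least 2, but any number of non-leaf vertices is allowed. The Sprague-Grundy
value is the nim-sum of 1 (odd number of leaves) or 2 (even number) over the non-leaf vertices.

Proof idea. All positions with dominated `c` are solved in closed form (`Pool.Agent.NDG61.Q`): with
`j` undominated leaves at `c` and `a` (`b`) undominated non-leaf vertices with an odd (even)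
number of leaves, the value is the nim-sum if `3 ≤ j`, or `j = 2` and `b ≤ 1`, or `j = 1` and
`b ≤ a`; otherwise it differs from it by an explicit correction, or is at least 4 (`j = 1` and
`b = a + 1`). If `c` is undominated and each dominated non-leaf vertex has at least 2
undominated leaves, the value is the nim-sum: a leaf move at `w ≠ c` is answered by a leaf
move at `c`.
-/

namespace Pool.Agent.Results.MP_72fa99_lc.StarOfStars

open Pool.Agent.NDG25 Pool.Agent.NDG61

theorem result : ∀ (V : Type) [Finite V] (G : SimpleGraph V) (c : V),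
    ((∀ x y, G.Adj x y → IsLeaf G x → ¬ IsLeaf G y) ∨ G.Connected) →
    ¬ IsLeaf G c →
    (∀ v, ¬ IsLeaf G v → v ≠ c → G.Adj c v) →
    (∀ u v, ¬ IsLeaf G u → ¬ IsLeaf G v → G.Adj u v → u = c ∨ v = c) →
    4 ≤ leafDeg G c →
    (∀ v, ¬ IsLeaf G v → v ≠ c → 2 ≤ leafDeg G v) →
    (∀ n, HasGrundy G ∅ n ↔ n = oddInner G % 2 + 2 * (evenInner G % 2)) ∧
    (BobWins G ↔ Even (oddInner G) ∧ Even (evenInner G)) ∧
    (AliceWins G ↔ ¬ (Even (oddInner G) ∧ Even (evenInner G))) := by
  intro V _ G c hK hc hadj hst h4 h2
  have hg := gr_star G c hK hc hadj hst h4 h2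
  refine ⟨fun n => by rw [gr_eq_iff, hg], ?_, ?_⟩
  · rw [bobWins_iff, hg, Nat.even_iff, Nat.even_iff]
    omega
  · rw [aliceWins_iff, hg, Nat.even_iff, Nat.even_iff]
    omega

end Pool.Agent.Results.MP_72fa99_lc.StarOfStars
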